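import Pool.Agent.KS6_69.Ric.H662.Rz.P_w_comp
import Pool.Agent.KS6_69.Ric.H662.Rz.P_S_deriv
import Pool.Agent.KS6_69.Ric.H662.Rz.P_u_pos
import Pool.Agent.KS6_69.Ric.H662.Rz.P_S_le_exp
import Pool.Agent.KS6_69.Ric.H662.Rz.P_S_basic
import Pool.Agent.KS6_69.Ric.H662.Rz.P_S_growth
import Pool.Agent.KS6_69.Ric.H662.Rz.P_phi_facts
import Pool.Agent.KS6_69.Ric.H662.Rz.P_phi_bounds
import Pool.Agent.KS6_69.Ric.H662.Rz.P_p_d
import Pool.Agent.KS6_69.Ric.H662.Rz.P_S_sq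
import Pool.Agent.KS6_69.Ric.H662.Rz.P_x_Xi_bounds

set_option autoImplicit false
set_option linter.unusedVariables false

/-!
The base metrics of the library, with the exponent `80` replaced by `80 m`: the distance function
`psim` of the base then dominates the power `26 m` of the auxiliary function `S`.
-/

namespace Pool.Agent.KS6_69.Ric.SC
open Set Filter Topology ComplexConjugate Finset
open Pool.Agent.KS6_69.Ric.H662.Rz

/-- the metric of the base -/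
noncomputable def g0m (m : ℕ) (Λ : ℝ) (K : ℕ → ℕ) (z : ℂ) : ℝ :=
  Λ * Real.exp (80 * m * u K (‖z‖ ^ 2))

/-- a Lipschitz function on the base -/
noncomputable def psim (m : ℕ) (Λ : ℝ) (K : ℕ → ℕ) (z : ℂ) : ℝ :=
  Real.sqrt (1 + ‖z‖ ^ 2) * (Real.sqrt Λ * Real.exp (40 * m * u K (‖z‖ ^ 2))) / S K (‖z‖ ^ 2)


theorem gm_facts (m : ℕ) (K : ℕ → ℕ) {Λ : ℝ} (hΛ : 0 < Λ) (z : ℂ) :
    SmR (g0m m Λ K) ∧
    dz (cR (g0m m Λ K)) z = ((80 * m * deriv (u K) (‖z‖ ^ 2) * g0m m Λ K z : ℝ) : ℂ) * conj z ∧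
    th (g0m m Λ K) z = g0m m Λ K z * (80 * m * lp (u K) (‖z‖ ^ 2)
      + 6400 * m ^ 2 * ‖z‖ ^ 2 * deriv (u K) (‖z‖ ^ 2) ^ 2) := by
  have hu : ContDiff ℝ ((⊤ : ℕ∞) : WithTop ℕ∞) (u K) := (S_deriv K).1
  have hF : ContDiff ℝ ((⊤ : ℕ∞) : WithTop ℕ∞) (fun x : ℝ => Λ * Real.exp (80 * m * u K x)) :=
    contDiff_const.mul (Real.contDiff_exp.comp (contDiff_const.mul hu))
  obtain ⟨h1, h2, h3⟩ := w_comp hF (v := fun x => x) differentiable_id z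
  have hu1 : ∀ x, HasDerivAt (u K) (deriv (u K) x) x := fun x =>
    ((hu.differentiable (by simp)) x).hasDerivAt
  have hdu : ContDiff ℝ ((⊤ : ℕ∞) : WithTop ℕ∞) (deriv (u K)) := by
    have := (contDiff_infty_iff_deriv (f := u K)).mp hu
    exact this.2
  have hu2 : ∀ x, HasDerivAt (deriv (u K)) (deriv (deriv (u K)) x) x := fun x =>
    ((hdu.differentiable (by simp)) x).hasDerivAt
  have hF1 : ∀ x, HasDerivAt (fun x : ℝ => Λ * Real.exp (80 * m * u K x))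
      (80 * m * deriv (u K) x * (Λ * Real.exp (80 * m * u K x))) x := by
    intro x
    exact ((((hu1 x).const_mul (80 * (m : ℝ))).exp).const_mul Λ).congr_deriv (by ring)
  have hdF : deriv (fun x : ℝ => Λ * Real.exp (80 * m * u K x)) =
      fun x => 80 * m * deriv (u K) x * (Λ * Real.exp (80 * m * u K x)) := by
    funext x; exact (hF1 x).deriv
  have hF2 : ∀ x, HasDerivAt (fun x : ℝ => 80 * m * deriv (u K) x * (Λ * Real.exp (80 * m * u K x)))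
      (80 * m * deriv (deriv (u K)) x * (Λ * Real.exp (80 * m * u K x)) +
        80 * m * deriv (u K) x * (80 * m * deriv (u K) x * (Λ * Real.exp (80 * m * u K x)))) x := by
    intro x
    exact ((hu2 x).const_mul (80 * (m : ℝ))).mul (hF1 x)
  have hid : deriv (fun x : ℂ => x) z = 1 := (hasDerivAt_id z).deriv
  refine ⟨h3, ?_, ?_⟩
  · have h4 : dz (cR (g0m m Λ K)) z = _ := h1
    rw [h4, hid, mul_one, hdF]
    rfl
  · have h5 : th (g0m m Λ K) z = _ := h2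
    rw [h5, hid]
    unfold Pool.Agent.KS6_69.Ric.H662.Rz.lp
    rw [hdF, (hF2 _).deriv]
    unfold g0m
    simp only [norm_one, one_pow, mul_one]
    ring




theorem gm_kap (m : ℕ) (K : ℕ → ℕ) {Λ : ℝ} (hΛ : 0 < Λ) (z : ℂ) :
    ‖dz (cR (g0m m Λ K)) z‖ ^ 2 = 6400 * m ^ 2 * ‖z‖ ^ 2 * deriv (u K) (‖z‖ ^ 2) ^ 2 * g0m m Λ K z ^ 2 ∧
    th (g0m m Λ K) z - ‖dz (cR (g0m m Λ K)) z‖ ^ 2 / g0m m Λ K z
      = 80 * m * lp (u K) (‖z‖ ^ 2) * g0m m Λ K z := by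
  obtain ⟨-, h1, h2⟩ := gm_facts m K hΛ z
  have hg : 0 < g0m m Λ K z := by unfold g0m; positivity
  have e : ‖dz (cR (g0m m Λ K)) z‖ ^ 2 =
      6400 * m ^ 2 * ‖z‖ ^ 2 * deriv (u K) (‖z‖ ^ 2) ^ 2 * g0m m Λ K z ^ 2 := by
    rw [h1, norm_mul, Complex.norm_conj, Complex.norm_real, mul_pow, Real.norm_eq_abs, sq_abs]
    ring
  refine ⟨e, ?_⟩
  rw [e, h2]
  field_simp
  ring




theorem psim_alg (m : ℕ) (hm : 1 ≤ m) {K : ℕ → ℕ} (hK : ∀ j, 2 ≤ K j) {Λ : ℝ} (hΛ : 1 ≤ Λ) (z : ℂ) :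
    ‖z‖ ≤ psim m Λ K z ∧ 0 < psim m Λ K z ∧
    (1 + ‖z‖ ^ 2) * g0m m Λ K z = psim m Λ K z ^ 2 * S K (‖z‖ ^ 2) ^ 2 ∧
    Differentiable ℝ (psim m Λ K) := by
  have hK1 : ∀ j, 1 ≤ K j := fun j => le_trans (by norm_num) (hK j)
  have hx : ∀ z : ℂ, 0 ≤ ‖z‖ ^ 2 := fun z => by positivity
  have hS1 : ∀ z : ℂ, 1 ≤ S K (‖z‖ ^ 2) := fun z => (S_basic hK1 (hx z)).1
  have hS0 : ∀ z : ℂ, 0 < S K (‖z‖ ^ 2) := fun z => by linarith [hS1 z]
  have hu := (u_pos hK1 (hx z)).1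
  have hSe := S_le_exp K (hx z)
  have hs1 : 0 < Real.sqrt (1 + ‖z‖ ^ 2) := Real.sqrt_pos.2 (by linarith [hx z])
  have hΛ1 : 1 ≤ Real.sqrt Λ := Real.one_le_sqrt.2 hΛ
  have hpos : 0 < psim m Λ K z := by
    unfold psim
    have := hS0 z
    positivity
  refine ⟨?_, hpos, ?_, ?_⟩
  · have h1 : ‖z‖ ≤ Real.sqrt (1 + ‖z‖ ^ 2) := by
      apply Real.le_sqrt_of_sq_le
      linarith
    have h2 : S K (‖z‖ ^ 2) ≤ Real.exp (40 * m * u K (‖z‖ ^ 2)) :=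
      hSe.trans (Real.exp_le_exp.2 (by
        have hm' : (1 : ℝ) ≤ m := by exact_mod_cast hm
        have h40 : u K (‖z‖ ^ 2) ≤ m * u K (‖z‖ ^ 2) := le_mul_of_one_le_left hu hm'
        linarith))
    have h3 : S K (‖z‖ ^ 2) ≤ Real.sqrt Λ * Real.exp (40 * m * u K (‖z‖ ^ 2)) :=
      h2.trans (le_mul_of_one_le_left (Real.exp_pos _).le hΛ1)
    unfold psim
    rw [le_div_iff₀ (hS0 z)]
    exact mul_le_mul h1 h3 (hS0 z).le hs1.le
  · have h1 : psim m Λ K z * S K (‖z‖ ^ 2) =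
        Real.sqrt (1 + ‖z‖ ^ 2) * (Real.sqrt Λ * Real.exp (40 * m * u K (‖z‖ ^ 2))) := by
      unfold psim
      exact div_mul_cancel₀ _ (hS0 z).ne'
    rw [← mul_pow, h1, mul_pow, mul_pow, Real.sq_sqrt (by linarith [hx z]),
      Real.sq_sqrt (by linarith), ← Real.exp_nat_mul]
    unfold g0m
    congr 2
    push_cast
    congr 1
    ring
  · have hn : Differentiable ℝ (fun z : ℂ => ‖z‖ ^ 2) :=
      (contDiff_norm_sq ℝ (n := 1)).differentiable (by norm_num)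
    have hud : Differentiable ℝ (u K) := (S_deriv K).1.differentiable (by simp)
    have hSd : Differentiable ℝ (S K) := fun x => ((S_deriv K).2.2.2 x).differentiableAt
    have h1 : Differentiable ℝ (fun z : ℂ => Real.sqrt (1 + ‖z‖ ^ 2)) :=
      (hn.const_add 1).sqrt fun z => by linarith [hx z] |> fun h : 0 < 1 + ‖z‖ ^ 2 => h.ne'
    have h2 : Differentiable ℝ (fun z : ℂ => Real.sqrt Λ * Real.exp (40 * m * u K (‖z‖ ^ 2))) :=
      (((hud.comp hn).const_mul (40 * (m : ℝ))).exp).const_mul _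
    have h3 : Differentiable ℝ (fun z : ℂ => S K (‖z‖ ^ 2)) := hSd.comp hn
    have h4 : Differentiable ℝ (fun z : ℂ => (S K (‖z‖ ^ 2))⁻¹) := h3.inv fun z => (hS0 z).ne'
    have h5 : psim m Λ K = fun z : ℂ => Real.sqrt (1 + ‖z‖ ^ 2) *
        (Real.sqrt Λ * Real.exp (40 * m * u K (‖z‖ ^ 2))) * (S K (‖z‖ ^ 2))⁻¹ := by
      funext z
      rw [psim, div_eq_mul_inv]
    rw [h5]
    exact (h1.mul h2).mul h4




theorem psim_key {r S U L LE n C i w m : ℝ} (hm : 1 ≤ m) (hr : 1 ≤ r) (hn0 : 0 ≤ n) (hn : n ≤ r) (hS : 1 ≤ S)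
    (hU : 0 ≤ U) (hL : 0 ≤ L) (hLE : 0 ≤ LE) (hC : 1 ≤ C) (h1 : r ^ 2 * U ≤ C * S)
    (h2 : r ^ 2 * L ≤ C * S ^ 2) (hi : |i| ≤ n * w) (hw : 0 ≤ w) :
    |((1 / (2 * r) * LE + r * (LE * (40 * m * U))) * S - r * LE * L) / S ^ 2 * (2 * i)|
      ≤ 100 * m * C * (LE * w) := by
  have hr0 : 0 < r := by linarith
  have hS0 : 0 < S := by linarith
  have hnum : |(1 / (2 * r) * LE + r * (LE * (40 * m * U))) * S - r * LE * L|
      ≤ (1 / (2 * r) * LE + r * (LE * (40 * m * U))) * S + r * LE * L := by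
    have ha : 0 ≤ (1 / (2 * r) * LE + r * (LE * (40 * m * U))) * S := by positivity
    have hb : 0 ≤ r * LE * L := by positivity
    rw [abs_le]
    constructor <;> linarith
  have h2i : |2 * i| ≤ 2 * (r * w) := by
    rw [abs_mul, abs_two]
    have : n * w ≤ r * w := mul_le_mul_of_nonneg_right hn hw
    linarith
  rw [abs_mul, abs_div, abs_of_pos (show (0 : ℝ) < S ^ 2 by positivity)]
  have hstep : |(1 / (2 * r) * LE + r * (LE * (40 * m * U))) * S - r * LE * L| / S ^ 2 * |2 * i|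
      ≤ ((1 / (2 * r) * LE + r * (LE * (40 * m * U))) * S + r * LE * L) / S ^ 2 * (2 * (r * w)) := by
    apply mul_le_mul _ h2i (abs_nonneg _) (by positivity)
    exact div_le_div_of_nonneg_right hnum (by positivity)
  refine hstep.trans ?_
  have heq : ((1 / (2 * r) * LE + r * (LE * (40 * m * U))) * S + r * LE * L) / S ^ 2 * (2 * (r * w))
      = LE * w * ((S + 80 * m * (r ^ 2 * U) * S + 2 * (r ^ 2 * L)) / S ^ 2) := by
    field_simp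
    ring
  rw [heq]
  have hq : (S + 80 * m * (r ^ 2 * U) * S + 2 * (r ^ 2 * L)) / S ^ 2 ≤ 100 * m * C := by
    rw [div_le_iff₀ (by positivity)]
    have e1 : (r ^ 2 * U) * S ≤ C * S * S := mul_le_mul_of_nonneg_right h1 hS0.le
    have e2 : S ≤ C * S ^ 2 := by nlinarith [mul_nonneg (sub_nonneg.mpr hC) (sub_nonneg.mpr hS), mul_pos hS0 hS0]
    have e3 : 0 ≤ C * S ^ 2 := by positivity
    nlinarith
  calc LE * w * ((S + 80 * m * (r ^ 2 * U) * S + 2 * (r ^ 2 * L)) / S ^ 2)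
      ≤ LE * w * (100 * m * C) := mul_le_mul_of_nonneg_left hq (by positivity)
    _ = 100 * m * C * (LE * w) := by ring

theorem psim_lip (m : ℕ) (hm : 1 ≤ m) {K : ℕ → ℕ} (hK : ∀ j, 2 ≤ K j) : ∃ C : ℝ, 1 ≤ C ∧ ∀ Λ : ℝ, 1 ≤ Λ →
    ∀ z v : ℂ, |fderiv ℝ (psim m Λ K) z v| ≤ C * (Real.sqrt (g0m m Λ K z) * ‖v‖) := by
  have hK1 : ∀ j, 1 ≤ K j := fun j => le_trans (by norm_num) (hK j)
  obtain ⟨C, hC, hg⟩ := S_growth hK1
  have hm' : (1 : ℝ) ≤ m := by exact_mod_cast hm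
  refine ⟨100 * m * C, by nlinarith, fun Λ hΛ z v => ?_⟩
  have hx0 : (0 : ℝ) ≤ ‖z‖ ^ 2 := sq_nonneg _
  obtain ⟨g1, g2⟩ := hg (‖z‖ ^ 2) hx0
  obtain ⟨u0, u1, u2⟩ := u_pos hK1 hx0
  obtain ⟨S1, -, -, -⟩ := S_basic hK1 hx0
  obtain ⟨cu, -, -, dS⟩ := S_deriv K
  have hdu : HasDerivAt (u K) (deriv (u K) (‖z‖ ^ 2)) (‖z‖ ^ 2) :=
    ((cu.differentiable (by simp)) (‖z‖ ^ 2)).hasDerivAt
  have hr1 : HasDerivAt (fun x : ℝ => Real.sqrt (1 + x)) (1 / (2 * Real.sqrt (1 + ‖z‖ ^ 2)))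
      (‖z‖ ^ 2) := by
    have h1 : HasDerivAt (fun x : ℝ => 1 + x) 1 (‖z‖ ^ 2) := (hasDerivAt_id _).const_add 1
    exact h1.sqrt (by positivity)
  have hE : HasDerivAt (fun x : ℝ => Real.sqrt Λ * Real.exp (40 * m * u K x))
      (Real.sqrt Λ * (Real.exp (40 * m * u K (‖z‖ ^ 2)) * (40 * m * deriv (u K) (‖z‖ ^ 2)))) (‖z‖ ^ 2) :=
    ((hdu.const_mul (40 * (m : ℝ))).exp).const_mul (Real.sqrt Λ)
  have hSne : S K (‖z‖ ^ 2) ≠ 0 := by linarith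
  have hF : HasDerivAt (fun x : ℝ => Real.sqrt (1 + x) * (Real.sqrt Λ * Real.exp (40 * m * u K x)) / S K x)
      _ (‖z‖ ^ 2) := (hr1.mul hE).div (dS _) hSne
  have hn : HasFDerivAt (fun z : ℂ => ‖z‖ ^ 2) (2 • (innerSL ℝ z)) z :=
    (hasStrictFDerivAt_norm_sq z).hasFDerivAt
  have hcomp := hF.comp_hasFDerivAt z hn
  have hfd : fderiv ℝ (psim m Λ K) z = _ := hcomp.fderiv
  have hsq : Real.sqrt (g0m m Λ K z) = Real.sqrt Λ * Real.exp (40 * m * u K (‖z‖ ^ 2)) := by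
    unfold g0m
    rw [Real.sqrt_mul (by linarith)]
    congr 1
    rw [show 80 * m * u K (‖z‖ ^ 2) = 40 * m * u K (‖z‖ ^ 2) + 40 * m * u K (‖z‖ ^ 2) by ring, Real.exp_add,
      Real.sqrt_mul_self (Real.exp_pos _).le]
  rw [hfd, hsq]
  have hin : |(inner ℝ z v : ℝ)| ≤ ‖z‖ * ‖v‖ := abs_real_inner_le_norm z v
  have hr : 1 ≤ Real.sqrt (1 + ‖z‖ ^ 2) := by
    rw [Real.one_le_sqrt]
    linarith
  have hzr : ‖z‖ ≤ Real.sqrt (1 + ‖z‖ ^ 2) := by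
    apply Real.le_sqrt_of_sq_le
    linarith
  have hr2 : Real.sqrt (1 + ‖z‖ ^ 2) ^ 2 = 1 + ‖z‖ ^ 2 := Real.sq_sqrt (by linarith)
  have hLE : 0 ≤ Real.sqrt Λ * Real.exp (40 * m * u K (‖z‖ ^ 2)) := by positivity
  have key := psim_key (r := Real.sqrt (1 + ‖z‖ ^ 2)) (S := S K (‖z‖ ^ 2))
    (U := deriv (u K) (‖z‖ ^ 2)) (L := lp (u K) (‖z‖ ^ 2))
    (LE := Real.sqrt Λ * Real.exp (40 * m * u K (‖z‖ ^ 2))) (n := ‖z‖) (C := C)
    (i := (inner ℝ z v : ℝ)) (w := ‖v‖) hm' hr (norm_nonneg _) hzr S1 u1 (by linarith) hLE hC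
    (by rw [hr2]; exact g1) (by rw [hr2]; exact g2) hin (norm_nonneg _)
  refine le_trans (le_of_eq ?_) key
  congr 1
  simp only [smul_apply, innerSL_apply_apply, smul_eq_mul, nsmul_eq_mul,
    Nat.cast_ofNat, Pi.mul_apply]
  ring




theorem gm_base (m : ℕ) (hm : 1 ≤ m) (Q : QD) {K : ℕ → ℕ} (hK : ∀ j, 2 ≤ K j) {Λ : ℝ} (hΛ : 1 ≤ Λ) (z : ℂ) :
    g0m m Λ K z ^ 2 ≤ 24 * ((th (g0m m Λ K) z - ‖dz (cR (g0m m Λ K)) z‖ ^ 2 / g0m m Λ K z)
      + th (phi Q K) z * g0m m Λ K z) * (1 + psim m Λ K z ^ 2) := by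
  have hK1 : ∀ j, 1 ≤ K j := fun j => by have := hK j; omega
  have hx : 0 ≤ ‖z‖ ^ 2 := sq_nonneg _
  have hg : 0 < g0m m Λ K z := by
    unfold g0m
    have : 0 < Λ := by linarith
    positivity
  obtain ⟨_, _, hu⟩ := u_pos hK1 hx
  have hP := (p_d K (‖z‖ ^ 2)).2.2 hx
  have hS := S_sq hK1 hx
  have hXi := (x_Xi_bounds Q hK z).1
  have hkap := (gm_kap m K (by linarith : 0 < Λ) z).2
  have hphi := (phi_facts Q hK z).2.1
  have hpsi := (psim_alg m hm hK hΛ z).2.2.1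
  rw [hkap, hphi]
  set x := ‖z‖ ^ 2
  set g := g0m m Λ K z
  set ψ := psim m Λ K z
  set a := lp (u K) x
  set b := lp (P K) x
  set t := th (Xi Q K) z
  have hψ : 0 ≤ ψ ^ 2 := sq_nonneg _
  have hm' : (1 : ℝ) ≤ m := by exact_mod_cast hm
  have hma : a ≤ m * a := le_mul_of_one_le_left (by linarith) hm'
  have hmx : x * a ≤ x * (m * a) := mul_le_mul_of_nonneg_left hma hx
  have h1 : (1 + x) * g ≤ (1 + x) * (24 * ψ ^ 2 * (80 * m * a + (1 + b + t))) := by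
    rw [hpsi]
    calc ψ ^ 2 * S K x ^ 2 ≤ ψ ^ 2 * (24 * (1 + x * a + x * b)) :=
          mul_le_mul_of_nonneg_left hS hψ
      _ ≤ ψ ^ 2 * (24 * ((1 + x) * (80 * m * a + (1 + b + t)))) := by
          apply mul_le_mul_of_nonneg_left _ hψ
          have e1 : 0 ≤ x * a := by positivity
          have e2 : 0 ≤ x * b := by positivity
          have e3 : 0 ≤ x * t := by positivity
          nlinarith
      _ = _ := by ring
  have h2 : g ≤ 24 * ψ ^ 2 * (80 * m * a + (1 + b + t)) := le_of_mul_le_mul_left h1 (by linarith)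
  have hB : 0 ≤ 80 * m * a + (1 + b + t) := by linarith
  have h3 : g ≤ 24 * (1 + ψ ^ 2) * (80 * m * a + (1 + b + t)) := by nlinarith
  calc g ^ 2 = g * g := sq g
    _ ≤ (24 * (1 + ψ ^ 2) * (80 * m * a + (1 + b + t))) * g := mul_le_mul_of_nonneg_right h3 hg.le
    _ = _ := by ring


end Pool.Agent.KS6_69.Ric.SC
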