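import Pool.Agent.KS6_69.Ric.SC.Star
import Pool.Agent.KS6_69.Ric.H662.RdE

set_option autoImplicit false
set_option linter.unusedSimpArgs false

namespace Pool.Agent.KS6_69.Ric.SC

open Set Filter Topology ComplexConjugate
open Pool.Agent.KS6_69.Ric.H269.KdDefs Pool.Agent.KS6_69.Ric.H662.RicDefs
open Pool.Agent.KS6_69.Ric.H662.RdA Pool.Agent.KS6_69.Ric.H662.RdB
open Pool.Agent.KS6_69.Ric.H662.RdC Pool.Agent.KS6_69.Ric.H662.RdD
open Pool.Agent.KS6_69.Ric.H662.RdE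

variable (B : Base)

/-- All sectional curvatures at `p` are at most `-κ`, for every
`κ ≤ 1 / (64 g₀ (T V + T²))`. -/
theorem secCurv_le {T V : ℂ → ℝ} (hG : Good B T V)
    (hbig : ∀ z : ℂ, 12800 * (T z ^ 6 + V z * T z) ≤ B.g0 z) {p : ℂ × ℂ} (hp : p ∈ dom B)
    {κ : ℝ} (hκ0 : 0 ≤ κ)
    (hκ : 64 * κ * (B.g0 p.1 * (T p.1 * V p.1 + T p.1 ^ 2)) ≤ 1)
    {X Y : ℂ × ℂ} (h : LinearIndependent ℝ ![X, Y]) : secCurv (gm B) p X Y ≤ -κ := by
  have hden := bilin_wedge_pos B hp h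
  have hq := qq_pos B hp
  have hb := bb_pos B hp
  have hr1 := one_le_rho B hp
  obtain ⟨s0, s1, s2⟩ := star_strict (Y := rho B p - 1) (g := B.g0 p.1) (θ := B.th p.1)
    (T := T p.1) (V := V p.1) (kθ := B.kth p.1) (gzz := B.gzz p.1) (q := qq B p)
    (β := bb B p * ‖p.2‖ ^ 2) (Bt := eB B p) (Aa := eA B p) (κ := κ)
    (σ := B.sig p.1) (γ := B.gam p.1) (qz := qz B p) (e := eE B p)
    (by linarith) (hG.th1 _) (hG.thT _) (hG.sig_le _) (hG.kth_le _) (hG.V0 _) (hG.gam_le _)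
    (hbig _) (hG.gk _) rfl (rel3 B hp) (by simp [qz]) rfl
    (by unfold eB; rw [rel2 B hp]) (by unfold eA qzz; ring) hκ0 hκ
  have key := Pool.Agent.KS6_69.Ric.H269.KdJ.S18945.quad_form (κ := κ) (w := p.2) (e := eE B p)
    hb hq hκ0 s0 (by ring : ‖p.2‖ ^ 2 * bb B p = bb B p * ‖p.2‖ ^ 2)
    (Aa := eA B p) (Bt := eB B p) s1 s2
    ((X.1 * conj Y.1).im) ((nu B p X * conj (nu B p Y)).im)
    (X.1 * conj (nu B p Y) - Y.1 * conj (nu B p X)) (w2 := 0)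
  unfold secCurv
  rw [div_le_iff₀ hden, gm_curv B hp, rel4 B hp, wedge B p X Y]
  linarith

end Pool.Agent.KS6_69.Ric.SC
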