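import Pool.Agent.KS6_69.Ric.SC.Base

set_option autoImplicit false
set_option linter.unusedVariables false

namespace Pool.Agent.KS6_69.Ric.SC
open Set Filter Topology ComplexConjugate Finset
open Pool.Agent.KS6_69.Ric.H662.Rz

theorem base_m (m : ℕ) (hm : 1 ≤ m) (Q : QD) {K : ℕ → ℕ} (hK : ∀ j, 2 ≤ K j) :
    ∃ (g0 ψ T V s : ℂ → ℝ) (C D : ℝ), BG (phi Q K) g0 ψ T V C ∧
      (∀ z, 12800 * (T z ^ 6 + V z * T z) ≤ g0 z) ∧ 1 ≤ D ∧ (∀ z, 1 ≤ ψ z) ∧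
      (∀ z, g0 z * (T z * V z + T z ^ 2) ≤ D * (ψ z ^ 2 * s z)) ∧
      ∀ z, 1 ≤ s z ∧ s z ^ m ≤ ψ z := by
  have hm' : (1 : ℝ) ≤ m := by exact_mod_cast hm
  have hK1 : ∀ j, 1 ≤ K j := fun j => le_trans (by norm_num) (hK j)
  obtain ⟨C1, hC1, hphi⟩ := phi_bounds Q hK
  obtain ⟨C2, hC2, hS⟩ := S_growth hK1
  obtain ⟨C3, hC3, hpsi⟩ := psim_lip m hm hK
  have hC1p : 0 < C1 := by linarith
  have hC2p : 0 < C2 := by linarith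
  set Λ : ℝ := 12800 * (C1 ^ 6 + 6400 * m ^ 2 * C2 ^ 2 * C1) + 1 with hΛdef
  have hΛ1 : 1 ≤ Λ := by
    have : 0 ≤ 12800 * (C1 ^ 6 + 6400 * m ^ 2 * C2 ^ 2 * C1) := by positivity
    linarith
  have hΛ : 0 < Λ := by linarith
  have hg0 : ∀ z, 0 < g0m m Λ K z := fun z => by
    unfold g0m
    positivity
  have hx : ∀ z : ℂ, 0 ≤ ‖z‖ ^ 2 := fun z => sq_nonneg _
  have hS1 : ∀ z : ℂ, 1 ≤ S K (‖z‖ ^ 2) := fun z => (S_basic hK1 (hx z)).1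
  have hfac : ∀ z : ℂ, 0 ≤ ((th (g0m m Λ K) z - ‖dz (cR (g0m m Λ K)) z‖ ^ 2 / g0m m Λ K z)
      + th (phi Q K) z * g0m m Λ K z) * (1 + psim m Λ K z ^ 2) := by
    intro z
    have h1 := (gm_kap m K hΛ z).2
    have h2 := (u_pos hK1 (hx z)).2.2
    have h3 := (hphi z).2.1
    have h4 := hg0 z
    rw [h1]
    have h5 : 0 ≤ 80 * m * H662.Rz.lp (u K) (‖z‖ ^ 2) * g0m m Λ K z := by positivity
    have h6 : 0 ≤ th (phi Q K) z * g0m m Λ K z := mul_nonneg (by linarith) h4.le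
    have h7 : 0 ≤ 1 + psim m Λ K z ^ 2 := by positivity
    exact mul_nonneg (add_nonneg h5 h6) h7
  have hbig : ∀ z : ℂ, 12800 * ((C1 * S K (‖z‖ ^ 2) ^ 12) ^ 6 +
      6400 * m ^ 2 * ‖z‖ ^ 2 * deriv (u K) (‖z‖ ^ 2) ^ 2 * (C1 * S K (‖z‖ ^ 2) ^ 12)) ≤
        g0m m Λ K z ∧
      6400 * m ^ 2 * ‖z‖ ^ 2 * deriv (u K) (‖z‖ ^ 2) ^ 2 ≤
        6400 * m ^ 2 * C2 ^ 2 * S K (‖z‖ ^ 2) ^ 2 := by
    intro z
    have hs := hS1 z
    have hs0 : 0 < S K (‖z‖ ^ 2) := by linarith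
    obtain ⟨hu0, hu1, hu2⟩ := u_pos hK1 (hx z)
    have hgr := (hS (‖z‖ ^ 2) (hx z)).1
    have hSe := S_le_exp K (hx z)
    set s := S K (‖z‖ ^ 2) with hsdef
    set u' := deriv (u K) (‖z‖ ^ 2) with hu'def
    have hV : 6400 * m ^ 2 * ‖z‖ ^ 2 * u' ^ 2 ≤ 6400 * m ^ 2 * C2 ^ 2 * s ^ 2 := by
      have h1 : 0 ≤ (1 + ‖z‖ ^ 2) * u' := mul_nonneg (by positivity) hu1
      have h2 : ((1 + ‖z‖ ^ 2) * u') ^ 2 ≤ (C2 * s) ^ 2 := pow_le_pow_left₀ h1 hgr 2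
      have h3 : ‖z‖ ^ 2 ≤ (1 + ‖z‖ ^ 2) ^ 2 := by nlinarith [hx z, sq_nonneg (‖z‖ ^ 2)]
      have h4 : ‖z‖ ^ 2 * u' ^ 2 ≤ (1 + ‖z‖ ^ 2) ^ 2 * u' ^ 2 :=
        mul_le_mul_of_nonneg_right h3 (sq_nonneg _)
      have h5 : (1 + ‖z‖ ^ 2) ^ 2 * u' ^ 2 ≤ C2 ^ 2 * s ^ 2 := by
        rw [← mul_pow, ← mul_pow]
        exact h2
      have h6 : 6400 * (m : ℝ) ^ 2 * (‖z‖ ^ 2 * u' ^ 2) ≤ 6400 * (m : ℝ) ^ 2 * (C2 ^ 2 * s ^ 2) :=
        mul_le_mul_of_nonneg_left (h4.trans h5) (by positivity)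
      calc 6400 * (m : ℝ) ^ 2 * ‖z‖ ^ 2 * u' ^ 2 = 6400 * (m : ℝ) ^ 2 * (‖z‖ ^ 2 * u' ^ 2) := by ring
        _ ≤ 6400 * (m : ℝ) ^ 2 * (C2 ^ 2 * s ^ 2) := h6
        _ = 6400 * m ^ 2 * C2 ^ 2 * s ^ 2 := by ring
    refine ⟨?_, hV⟩
    have h80 : s ^ 80 ≤ Real.exp (80 * m * u K (‖z‖ ^ 2)) := by
      have h1 := pow_le_pow_left₀ hs0.le hSe 80
      rw [← Real.exp_nat_mul] at h1
      refine h1.trans (Real.exp_le_exp.2 ?_)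
      have h2 : u K (‖z‖ ^ 2) ≤ m * u K (‖z‖ ^ 2) := le_mul_of_one_le_left hu0 hm'
      push_cast
      linarith
    have h72 : s ^ 72 ≤ s ^ 80 := pow_le_pow_right₀ hs (by norm_num)
    have h14 : s ^ 14 ≤ s ^ 80 := pow_le_pow_right₀ hs (by norm_num)
    have hT6 : (C1 * s ^ 12) ^ 6 ≤ C1 ^ 6 * s ^ 80 := by
      have h1 : (C1 * s ^ 12) ^ 6 = C1 ^ 6 * s ^ 72 := by ring
      rw [h1]
      exact mul_le_mul_of_nonneg_left h72 (by positivity)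
    have hVT : 6400 * m ^ 2 * ‖z‖ ^ 2 * u' ^ 2 * (C1 * s ^ 12) ≤
        6400 * m ^ 2 * C2 ^ 2 * C1 * s ^ 80 := by
      have h1 : 6400 * m ^ 2 * ‖z‖ ^ 2 * u' ^ 2 * (C1 * s ^ 12) ≤
          6400 * m ^ 2 * C2 ^ 2 * s ^ 2 * (C1 * s ^ 12) :=
        mul_le_mul_of_nonneg_right hV (by positivity)
      have h2 : 6400 * (m : ℝ) ^ 2 * C2 ^ 2 * s ^ 2 * (C1 * s ^ 12) =
          6400 * m ^ 2 * C2 ^ 2 * C1 * s ^ 14 := by ring
      rw [h2] at h1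
      exact h1.trans (mul_le_mul_of_nonneg_left h14 (by positivity))
    have hfin : 12800 * ((C1 * s ^ 12) ^ 6 + 6400 * m ^ 2 * ‖z‖ ^ 2 * u' ^ 2 * (C1 * s ^ 12)) ≤
        Λ * s ^ 80 := by
      have h1 : 0 ≤ s ^ 80 := by positivity
      have h2 : Λ * s ^ 80 =
          12800 * (C1 ^ 6 * s ^ 80 + 6400 * m ^ 2 * C2 ^ 2 * C1 * s ^ 80) + s ^ 80 := by
        rw [hΛdef]
        ring
      rw [h2]
      linarith
    refine hfin.trans ?_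
    unfold g0m
    exact mul_le_mul_of_nonneg_left h80 hΛ.le
  have hψS : ∀ z : ℂ, S K (‖z‖ ^ 2) ^ (26 * m) ≤ psim m Λ K z := by
    intro z
    have hs := hS1 z
    have hs0 : 0 < S K (‖z‖ ^ 2) := by linarith
    have hSe := S_le_exp K (hx z)
    have h1 : S K (‖z‖ ^ 2) ^ (40 * m) ≤ Real.exp (40 * m * u K (‖z‖ ^ 2)) := by
      have h1 := pow_le_pow_left₀ hs0.le hSe (40 * m)
      rw [← Real.exp_nat_mul] at h1
      push_cast at h1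
      exact h1
    have h2 : S K (‖z‖ ^ 2) ^ (26 * m) * S K (‖z‖ ^ 2) ≤ S K (‖z‖ ^ 2) ^ (40 * m) := by
      rw [← pow_succ]
      exact pow_le_pow_right₀ hs (by omega)
    have h3 : 1 ≤ Real.sqrt (1 + ‖z‖ ^ 2) := by
      rw [Real.one_le_sqrt]
      linarith [hx z]
    have h4 : 1 ≤ Real.sqrt Λ := Real.one_le_sqrt.2 hΛ1
    unfold psim
    rw [le_div_iff₀ hs0]
    have h5 : Real.exp (40 * m * u K (‖z‖ ^ 2)) ≤
        Real.sqrt Λ * Real.exp (40 * m * u K (‖z‖ ^ 2)) :=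
      le_mul_of_one_le_left (Real.exp_pos _).le h4
    have h6 : Real.sqrt Λ * Real.exp (40 * m * u K (‖z‖ ^ 2)) ≤
        Real.sqrt (1 + ‖z‖ ^ 2) * (Real.sqrt Λ * Real.exp (40 * m * u K (‖z‖ ^ 2))) :=
      le_mul_of_one_le_left (by positivity) h3
    linarith
  have hψ1 : ∀ z : ℂ, 1 ≤ psim m Λ K z := fun z => (one_le_pow₀ (hS1 z)).trans (hψS z)
  refine ⟨g0m m Λ K, psim m Λ K, fun z => C1 * S K (‖z‖ ^ 2) ^ 12,
    fun z => 6400 * m ^ 2 * ‖z‖ ^ 2 * deriv (u K) (‖z‖ ^ 2) ^ 2, fun z => S K (‖z‖ ^ 2) ^ 26,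
    max 24 C3, C1 * (6400 * m ^ 2 * C2 ^ 2) + C1 ^ 2, ?_, fun z => (hbig z).1, ?_, hψ1, ?_, ?_⟩
  · constructor
    · exact (phi_facts Q hK 0).1
    · exact (gm_facts m K hΛ 0).1
    · exact hg0
    · exact fun z => (hphi z).2.1
    · exact fun z => (hphi z).2.2.1
    · exact fun z => (hphi z).2.2.2.1
    · exact fun z => (hphi z).2.2.2.2
    · intro z
      positivity
    · intro z
      exact ((gm_kap m K hΛ z).1).le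
    · intro z
      have h1 := (hbig z).1
      have h2 : 0 ≤ (C1 * S K (‖z‖ ^ 2) ^ 12) ^ 6 +
          6400 * m ^ 2 * ‖z‖ ^ 2 * deriv (u K) (‖z‖ ^ 2) ^ 2 * (C1 * S K (‖z‖ ^ 2) ^ 12) := by
        have := hS1 z
        positivity
      linarith
    · intro z
      rw [(gm_kap m K hΛ z).2]
      have h2 := (u_pos hK1 (hx z)).2.2
      have h4 := hg0 z
      have h5 : 1 ≤ 80 * m * H662.Rz.lp (u K) (‖z‖ ^ 2) := by
        have : 1 * 1 ≤ (m : ℝ) * H662.Rz.lp (u K) (‖z‖ ^ 2) :=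
          mul_le_mul hm' h2 (by norm_num) (by linarith)
        linarith
      exact le_mul_of_one_le_left h4.le h5
    · exact le_trans (by norm_num) (le_max_left _ _)
    · exact (psim_alg m hm hK hΛ1 0).2.2.2
    · intro z v
      refine (hpsi Λ hΛ1 z v).trans ?_
      exact mul_le_mul_of_nonneg_right (le_max_right _ _)
        (mul_nonneg (Real.sqrt_nonneg _) (norm_nonneg _))
    · exact fun z => (psim_alg m hm hK hΛ1 z).1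
    · intro z
      refine (gm_base m hm Q hK hΛ1 z).trans ?_
      rw [mul_assoc, mul_assoc]
      exact mul_le_mul_of_nonneg_right (le_max_left _ _) (hfac z)
  · have h1 : 1 ≤ C1 ^ 2 := one_le_pow₀ hC1
    have h2 : 0 ≤ C1 * (6400 * m ^ 2 * C2 ^ 2) := by positivity
    linarith
  · intro z
    have hs := hS1 z
    have hs0 : 0 < S K (‖z‖ ^ 2) := by linarith
    have hV := (hbig z).2
    have hg : g0m m Λ K z ≤ psim m Λ K z ^ 2 * S K (‖z‖ ^ 2) ^ 2 := by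
      have h1 := (psim_alg m hm hK hΛ1 z).2.2.1
      rw [← h1]
      exact le_mul_of_one_le_left (hg0 z).le (by linarith [hx z])
    show g0m m Λ K z * (C1 * S K (‖z‖ ^ 2) ^ 12 * (6400 * m ^ 2 * ‖z‖ ^ 2 *
      deriv (u K) (‖z‖ ^ 2) ^ 2) + (C1 * S K (‖z‖ ^ 2) ^ 12) ^ 2) ≤
      (C1 * (6400 * m ^ 2 * C2 ^ 2) + C1 ^ 2) * (psim m Λ K z ^ 2 * S K (‖z‖ ^ 2) ^ 26)
    set s := S K (‖z‖ ^ 2) with hsdef
    have h1 : C1 * s ^ 12 * (6400 * m ^ 2 * ‖z‖ ^ 2 * deriv (u K) (‖z‖ ^ 2) ^ 2) ≤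
        C1 * (6400 * m ^ 2 * C2 ^ 2) * s ^ 24 := by
      have a1 : C1 * s ^ 12 * (6400 * m ^ 2 * ‖z‖ ^ 2 * deriv (u K) (‖z‖ ^ 2) ^ 2) ≤
          C1 * s ^ 12 * (6400 * m ^ 2 * C2 ^ 2 * s ^ 2) := mul_le_mul_of_nonneg_left hV (by positivity)
      have a2 : C1 * s ^ 12 * (6400 * m ^ 2 * C2 ^ 2 * s ^ 2) =
          C1 * (6400 * m ^ 2 * C2 ^ 2) * s ^ 14 := by ring
      have a3 : C1 * (6400 * m ^ 2 * C2 ^ 2) * s ^ 14 ≤ C1 * (6400 * m ^ 2 * C2 ^ 2) * s ^ 24 :=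
        mul_le_mul_of_nonneg_left (pow_le_pow_right₀ hs (by norm_num)) (by positivity)
      linarith
    have h2 : (C1 * s ^ 12) ^ 2 = C1 ^ 2 * s ^ 24 := by ring
    have h3 : C1 * s ^ 12 * (6400 * m ^ 2 * ‖z‖ ^ 2 * deriv (u K) (‖z‖ ^ 2) ^ 2) +
        (C1 * s ^ 12) ^ 2 ≤ (C1 * (6400 * m ^ 2 * C2 ^ 2) + C1 ^ 2) * s ^ 24 := by
      rw [h2, add_mul]
      linarith
    calc _ ≤ (psim m Λ K z ^ 2 * s ^ 2) * ((C1 * (6400 * m ^ 2 * C2 ^ 2) + C1 ^ 2) * s ^ 24) :=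
          mul_le_mul hg h3 (by positivity) (by positivity)
      _ = _ := by ring
  · intro z
    refine ⟨one_le_pow₀ (hS1 z), ?_⟩
    show (S K (‖z‖ ^ 2) ^ 26) ^ m ≤ psim m Λ K z
    rw [← pow_mul]
    exact hψS z

end Pool.Agent.KS6_69.Ric.SC
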