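import Pool.Agent.KS6_69.Ric.SC.Curv
import Pool.Agent.KS6_69.Ric.SC.Good
import Pool.Agent.KS6_69.Ric.H662.RdM
import Pool.Agent.KS6_69.Ric.H662.Rz.P_exists_QD
import Pool.Agent.KS6_69.Ric.H662.Rz.P_kill

set_option autoImplicit false

namespace Pool.Agent.KS6_69.Ric.SC

open Set Filter Topology ComplexConjugate
open Pool.Agent.KS6_69.Ric.H269.KdDefs Pool.Agent.KS6_69.Ric.H662.RicDefs
open Pool.Agent.KS6_69.Ric.H662.RdA Pool.Agent.KS6_69.Ric.H662.RdB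
open Pool.Agent.KS6_69.Ric.H662.RdC Pool.Agent.KS6_69.Ric.H662.RdD Pool.Agent.KS6_69.Ric.H662.RdE
open Pool.Agent.KS6_69.Ric.H662.RdF

/-- For some `A > 0`, at each point `p` of `U` every sectional curvature is at most
`-A / (1 + ρ(p)) ^ a`, where `ρ(p)` is the Riemannian distance from `p₀` to `p`. -/
def HasSectionalDecay (U : Set (ℂ × ℂ)) (g : ℂ × ℂ → LinearMap.BilinForm ℝ (ℂ × ℂ))
    (p₀ : ℂ × ℂ) (a : ℝ) : Prop :=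
  ∃ A : ℝ, 0 < A ∧ ∀ p ∈ U, ∀ X Y : ℂ × ℂ, LinearIndependent ℝ ![X, Y] →
    secCurv g p X Y ≤ -A / (1 + riemDist U g p₀ p) ^ a

variable (B : Base)

theorem rpow_est {s ψ ε : ℝ} {m : ℕ} (hm : 1 ≤ m) (hs : 1 ≤ s) (hψ : 1 ≤ ψ) (h : s ^ m ≤ ψ)
    (hε : 1 / (m : ℝ) ≤ ε) : s ≤ ψ ^ ε := by
  have h1 : s = (s ^ m) ^ ((m : ℝ)⁻¹) := (Real.pow_rpow_inv_natCast (by linarith) (by omega)).symm
  rw [h1]
  have h2 : (s ^ m) ^ ((m : ℝ)⁻¹) ≤ ψ ^ ((m : ℝ)⁻¹) :=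
    Real.rpow_le_rpow (by positivity) h (by positivity)
  refine h2.trans (Real.rpow_le_rpow_of_exponent_le hψ ?_)
  rw [← one_div]
  exact hε

theorem sectionalDecay {T V s : ℂ → ℝ} (hG : Good B T V)
    (hbig : ∀ z : ℂ, 12800 * (T z ^ 6 + V z * T z) ≤ B.g0 z) {ψ : ℂ → ℝ} {C D ε : ℝ} {m : ℕ}
    (hψ : Differentiable ℝ ψ) (hC : 1 ≤ C)
    (hl : ∀ z v, |fderiv ℝ ψ z v| ≤ C * (Real.sqrt (B.g0 z) * ‖v‖))
    (hD : 1 ≤ D) (hψ1 : ∀ z, 1 ≤ ψ z) (hm : 1 ≤ m) (hmε : 1 / (m : ℝ) ≤ ε)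
    (hgs : ∀ z, B.g0 z * (T z * V z + T z ^ 2) ≤ D * (ψ z ^ 2 * s z))
    (hs : ∀ z, 1 ≤ s z ∧ s z ^ m ≤ ψ z) :
    HasSectionalDecay (dom B) (gm B) (0, 0) (2 + ε) := by
  have hp0 := H662.RdM.zero_mem B
  set E0 : ℝ := H662.RdM.Ex B ψ (0, 0) with hE0
  have hE0' : 0 ≤ E0 := by
    rw [hE0]
    unfold H662.RdM.Ex
    have h1 := Real.log_nonneg (one_le_rho B hp0)
    have h2 := hψ1 0
    show 0 ≤ ψ 0 + _
    linarith
  set F : ℝ := E0 + C + 2 with hF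
  have hF1 : 1 ≤ F := by rw [hF]; linarith
  have hF0 : 0 < F := by linarith
  have hFp : 0 < F ^ (2 + ε) := Real.rpow_pos_of_pos hF0 _
  have hD0 : 0 < D := by linarith
  refine ⟨1 / (64 * D * F ^ (2 + ε)), by positivity, ?_⟩
  intro p hp X Y hXY
  set r := riemDist (dom B) (gm B) (0, 0) p with hr
  have hr0 : 0 ≤ r := Pool.Agent.KS6_69.Ric.H269.KdP.j14277_dist_nonneg _ _ _ _
  have h2 := Pool.Agent.KS6_69.Ric.H269.KdP.le_riemDist (H662.RdM.paths_nonempty B)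
    (by linarith : (0 : ℝ) ≤ C + 2) (H662.RdM.Ex_lip B hψ hC hl) hp0 hp
  rw [← hE0, ← hr] at h2
  have h3 : ψ p.1 ≤ F * (1 + r) := by
    have h4 := Real.log_nonneg (one_le_rho B hp)
    unfold H662.RdM.Ex at h2
    have h5 : F * (1 + r) = E0 + (C + 2) * r + (C + 2) + E0 * r := by rw [hF]; ring
    have h6 : 0 ≤ E0 * r := mul_nonneg hE0' hr0
    linarith
  have hr1 : 0 < 1 + r := by linarith
  have hrp : 0 < (1 + r) ^ (2 + ε) := Real.rpow_pos_of_pos hr1 _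
  have hm0 : (0 : ℝ) < 1 / (m : ℝ) := by
    have : (0 : ℝ) < m := by exact_mod_cast hm
    positivity
  have hε : 0 < ε := by linarith
  have hψp := hψ1 p.1
  have hψ0 : 0 < ψ p.1 := by linarith
  -- the bound of `g₀ (T V + T²)` by the distance
  have h7 : B.g0 p.1 * (T p.1 * V p.1 + T p.1 ^ 2) ≤ D * (F ^ (2 + ε) * (1 + r) ^ (2 + ε)) := by
    refine (hgs p.1).trans (mul_le_mul_of_nonneg_left ?_ hD0.le)
    have h8 := rpow_est hm (hs p.1).1 hψp (hs p.1).2 hmε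
    calc ψ p.1 ^ 2 * s p.1 ≤ ψ p.1 ^ 2 * ψ p.1 ^ ε := mul_le_mul_of_nonneg_left h8 (by positivity)
      _ = ψ p.1 ^ (2 + ε) := by
          rw [Real.rpow_add hψ0, Real.rpow_two]
      _ ≤ (F * (1 + r)) ^ (2 + ε) := Real.rpow_le_rpow hψ0.le h3 (by linarith)
      _ = F ^ (2 + ε) * (1 + r) ^ (2 + ε) := Real.mul_rpow hF0.le hr1.le
  have h9 := secCurv_le B hG hbig hp (κ := 1 / (64 * D * F ^ (2 + ε)) / (1 + r) ^ (2 + ε))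
    (by positivity) (by
      have h10 : 64 * (1 / (64 * D * F ^ (2 + ε)) / (1 + r) ^ (2 + ε)) *
          (D * (F ^ (2 + ε) * (1 + r) ^ (2 + ε))) = 1 := by
        field_simp
      exact (mul_le_mul_of_nonneg_left h7 (by positivity)).trans h10.le) hXY
  rw [neg_div]
  exact h9

theorem main (ε : ℝ) (hε : 0 < ε) :
    ∃ (U : Set (ℂ × ℂ)) (g : ℂ × ℂ → LinearMap.BilinForm ℝ (ℂ × ℂ)) (p₀ : ℂ × ℂ),
    IsOpen U ∧ SimplyConnectedSpace U ∧ IsKahlerMetricOn U g ∧ IsCompleteFor U g ∧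
      p₀ ∈ U ∧ HasSectionalDecay U g p₀ (2 + ε) ∧ HasRicciDecay U g p₀ ∧
      (∀ z : ℂ, (z, 0) ∈ U) ∧
      ∀ f : ℂ × ℂ → ℂ, IsBddHol U f → ∃ c : ℂ, ∀ p ∈ U, f p = c := by
  obtain ⟨n, hn⟩ := exists_nat_one_div_lt hε
  have hm : 1 ≤ n + 1 := by omega
  have hmε : 1 / ((n + 1 : ℕ) : ℝ) ≤ ε := by push_cast; exact hn.le
  obtain ⟨Q⟩ := Pool.Agent.KS6_69.Ric.H662.Rz.exists_QD
  obtain ⟨K, hK, hkill⟩ := Pool.Agent.KS6_69.Ric.H662.Rz.kill Q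
  obtain ⟨g0, ψ, T, V, s, C, D, hBG, hbig, hD, hψ1, hgs, hs⟩ := base_m (n + 1) hm Q
    (fun j => (by norm_num : 2 ≤ 4).trans (hK j))
  have hth : ∀ z, 0 ≤ Pool.Agent.KS6_69.Ric.H662.Rz.th (Pool.Agent.KS6_69.Ric.H662.Rz.phi Q K) z :=
    fun z => zero_le_one.trans (hBG.th1 z)
  obtain ⟨B, hB⟩ : ∃ B : Base, B = mkB (Pool.Agent.KS6_69.Ric.H662.Rz.phi Q K) g0 hBG.sφ hBG.sg
      hBG.gpos hth := ⟨_, rfl⟩
  have hG : Good B T V := by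
    rw [hB]
    exact ⟨hBG.th1, hBG.thT, hBG.sgT, hBG.ktT, hBG.V0, hBG.gV, hBG.gbig, hBG.gk⟩
  have hg0 : ∀ z, B.g0 z = g0 z := by rw [hB]; intro z; rfl
  have hl : ∀ z v, |fderiv ℝ ψ z v| ≤ C * (Real.sqrt (B.g0 z) * ‖v‖) := by
    rw [hB]
    exact hBG.lψ
  have hbase : ∀ z, B.g0 z ^ 2 ≤ C * (kap B z + B.th z * B.g0 z) * (1 + ψ z ^ 2) := by
    rw [hB]
    exact hBG.base
  have hk : ∀ m : ℕ, 1 ≤ m → ∀ F : ℂ → ℂ, Differentiable ℂ F → ∀ C : ℝ,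
      (∀ z, ‖F z‖ ^ 2 ≤ C * B.k z ^ m) → ∀ z, F z = 0 := by
    rw [hB]
    exact hkill
  refine ⟨dom B, gm B, (0, 0), isOpen_dom B, H662.RdM.simplyConnected B, isKahler B,
    H662.RdM.isComplete B hBG.dψ hBG.C1 hl hBG.nψ, H662.RdM.zero_mem B, ?_,
    H662.RdM.ricciDecay B hG hBG.dψ hBG.C1 hl hBG.nψ hbase, ?_, ?_⟩
  · exact sectionalDecay B hG (fun z => by rw [hg0]; exact hbig z) hBG.dψ hBG.C1 hl hD hψ1 hm hmε
      (fun z => by rw [hg0]; exact hgs z) hs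
  · intro z
    exact ⟨trivial, by simp⟩
  · intro f hf
    exact H662.RdM.constant B hk hf

end Pool.Agent.KS6_69.Ric.SC
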