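import Pool.Agent.KS6_69.Ric.H662.Rg.P_star

set_option autoImplicit false
set_option linter.unusedVariables false

/-!
A quantitative version of the curvature inequality of the library: the sectional curvatures are
not only nonpositive, but at most `-κ` for an explicit `κ > 0`.
-/

namespace Pool.Agent.KS6_69.Ric.SC
open Set Filter Topology ComplexConjugate
open Pool.Agent.KS6_69.Ric.H662.Rg

theorem surplus_big {Y g θ T q : ℝ} (hY : 0 ≤ Y) (hθ : 1 ≤ θ) (hT : 1 ≤ T) (hg : 1 ≤ g)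
    (hq : q = g + Y * θ) :
    3 / 32 * Y ^ 2 / g ≤ Y * T ^ 2 + θ ^ 3 * Y * (Y + 1) * (3 * Y + 1) / (2 * q) / 2 := by
  have hg0 : 0 < g := by linarith
  have hθ0 : 0 < θ := by linarith
  have hq0 : 0 < q := by rw [hq]; positivity
  have hS : 0 ≤ θ ^ 3 * Y * (Y + 1) * (3 * Y + 1) / (2 * q) := by positivity
  have hT2 : 1 ≤ T ^ 2 := one_le_pow₀ hT
  have hYT : Y ≤ Y * T ^ 2 := le_mul_of_one_le_right hY hT2
  rcases le_total Y g with h | h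
  · have h1 : 3 / 32 * Y ^ 2 / g ≤ Y := by
      rw [div_le_iff₀ hg0]
      nlinarith [mul_nonneg hY (sub_nonneg.mpr h)]
    linarith
  · have h1 : (3 / 4) * Y ^ 2 ≤ θ ^ 3 * Y * (Y + 1) * (3 * Y + 1) / (2 * q) := by
      rw [le_div_iff₀ (by positivity)]
      have b0 : Y ≤ Y * θ := le_mul_of_one_le_right hY hθ
      have b1 : q ≤ 2 * (Y * θ) := by rw [hq]; linarith
      have b2 : 3 / 4 * Y ^ 2 * (2 * q) ≤ 3 / 4 * Y ^ 2 * (2 * (2 * (Y * θ))) :=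
        mul_le_mul_of_nonneg_left (by linarith) (by positivity)
      have b3 : 3 / 4 * Y ^ 2 * (2 * (2 * (Y * θ))) = θ * (3 * Y ^ 3) := by ring
      have b4 : θ * (3 * Y ^ 3) ≤ θ ^ 3 * (3 * Y ^ 3) := by
        apply mul_le_mul_of_nonneg_right _ (by positivity)
        nlinarith [mul_nonneg hθ0.le (sub_nonneg.mpr hθ), mul_nonneg hθ0.le (mul_nonneg (sub_nonneg.mpr hθ) hθ0.le)]
      have b5 : θ ^ 3 * (3 * Y ^ 3) ≤ θ ^ 3 * Y * (Y + 1) * (3 * Y + 1) := by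
        have c1 : 3 * Y ^ 3 ≤ Y * ((Y + 1) * (3 * Y + 1)) := by
          nlinarith [mul_nonneg hY hY]
        have c2 := mul_le_mul_of_nonneg_left c1 (show 0 ≤ θ ^ 3 by positivity)
        linarith
      linarith
    have h2 : 3 / 32 * Y ^ 2 / g ≤ 3 / 32 * Y ^ 2 := div_le_self (by positivity) hg
    have h3 : 0 ≤ Y * T ^ 2 := by positivity
    nlinarith

theorem inv_est {x η : ℝ} (h0 : 0 ≤ η) (h1 : η ≤ 1 / 2) (hx : 0 ≤ x) :
    x / (1 - η) ≤ x * (1 + 2 * η) := by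
  rw [div_le_iff₀ (by linarith)]
  have : 1 ≤ (1 + 2 * η) * (1 - η) := by nlinarith
  nlinarith [mul_le_mul_of_nonneg_left this hx]

theorem inv_est2 {x κ : ℝ} (h0 : 0 ≤ κ) (h1 : κ ≤ 1) (hx : 0 ≤ x) :
    x / (2 - κ) ≤ x / 2 + κ * x / 2 := by
  rw [div_le_iff₀ (by linarith)]
  have h2 : 0 ≤ κ * (1 - κ) := mul_nonneg h0 (by linarith)
  have h3 := mul_nonneg h2 hx
  have h4 : (x / 2 + κ * x / 2) * (2 - κ) = x + (κ * (1 - κ) * x) / 2 := by ring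
  rw [h4]
  linarith

theorem star_strict {Y g θ T V kθ gzz q β Bt Aa κ : ℝ} {σ γ qz e : ℂ}
    (hY : 0 ≤ Y) (hθ : 1 ≤ θ) (hθT : θ ≤ T) (hσ : ‖σ‖ ≤ T) (hkθ : |kθ| ≤ T) (hV : 0 ≤ V)
    (hγ : ‖γ‖ ^ 2 ≤ V * g ^ 2) (hg : 12800 * (T ^ 6 + V * T) ≤ g) (hgz : g ≤ gzz - ‖γ‖ ^ 2 / g)
    (hq : q = g + Y * θ) (hβ : β = Y * (Y + 1)) (hqz : qz = γ + (Y : ℂ) * σ)
    (he : e = σ - (θ : ℂ) * qz / (q : ℂ)) (hBt : Bt = (2 * Y + 1) * θ - β * θ ^ 2 / q)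
    (hAa : Aa = 2 * β * θ ^ 2 + (gzz + Y * kθ) - ‖qz‖ ^ 2 / q)
    (hκ0 : 0 ≤ κ) (hκ : 64 * κ * (g * (T * V + T ^ 2)) ≤ 1) :
    κ < 1 ∧ κ * q < Bt ∧
      0 ≤ Aa - κ * q ^ 2 - 2 * β * ‖e‖ ^ 2 / (Bt - κ * q) - Bt ^ 2 / (2 - κ) := by
  have hT1 : 1 ≤ T := by linarith
  have hT0 : 0 < T := by linarith
  have hθ0 : 0 < θ := by linarith
  have hT6 : T ^ 2 ≤ T ^ 6 := pow_le_pow_right₀ hT1 (by norm_num)
  have hT60 : 0 < T ^ 6 := by positivity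
  have hT61 : 1 ≤ T ^ 6 := one_le_pow₀ hT1
  have hT21 : 1 ≤ T ^ 2 := one_le_pow₀ hT1
  have hVT : 0 ≤ V * T := by positivity
  have hg6 : 200 * (2 * T) ^ 6 ≤ g := by
    have : 200 * (2 * T) ^ 6 = 12800 * T ^ 6 := by ring
    linarith
  have hg1 : 12800 ≤ g := by linarith
  have hg0 : 0 < g := by linarith
  have hq0 : 0 < q := by rw [hq]; positivity
  set W := T * V + T ^ 2 with hW
  have hTV : 0 ≤ T * V := by positivity
  have hW1 : 1 ≤ W := by rw [hW]; linarith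
  have hW0 : 0 < W := by linarith
  have hκgW : κ * g * W ≤ 1 / 64 := by
    have : 64 * κ * (g * W) = 64 * (κ * g * W) := by ring
    linarith
  have hκg : κ * g ≤ 1 / 64 := by
    have h1 : 0 ≤ κ * g := by positivity
    have h2 : κ * g * 1 ≤ κ * g * W := mul_le_mul_of_nonneg_left hW1 h1
    linarith
  have hκgT : κ * g * T ^ 2 ≤ 1 / 64 := by
    have h1 : 0 ≤ κ * g := by positivity
    have h2 : κ * g * T ^ 2 ≤ κ * g * W := mul_le_mul_of_nonneg_left (by rw [hW]; linarith) h1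
    linarith
  have hκT : κ * T ^ 2 ≤ 1 / (64 * g) := by
    rw [le_div_iff₀ (by positivity)]
    have : κ * T ^ 2 * (64 * g) = 64 * (κ * g * T ^ 2) := by ring
    linarith
  have hκs : κ ≤ 1 / 64 := by
    have : κ * 1 ≤ κ * g := mul_le_mul_of_nonneg_left (by linarith) hκ0
    linarith
  set N := (2 * Y + 1) * g + Y ^ 2 * θ with hN
  have hN0 : 0 < N := by rw [hN]; positivity
  have hBt' : Bt = θ * N / q := by
    rw [hBt, hβ, hN, eq_div_iff hq0.ne']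
    field_simp
    rw [hq]
    ring
  have hBt0 : 0 < Bt := by rw [hBt']; positivity
  have hqsq : q ^ 2 ≤ 2 * g ^ 2 + 2 * Y ^ 2 * θ ^ 2 := by
    have e : 2 * g ^ 2 + 2 * Y ^ 2 * θ ^ 2 - q ^ 2 = (g - Y * θ) ^ 2 := by rw [hq]; ring
    linarith [sq_nonneg (g - Y * θ)]
  have hqN : q ^ 2 ≤ 2 * g * (θ * N) := by
    refine hqsq.trans ?_
    rw [hN]
    have h1 : g ^ 2 ≤ g ^ 2 * (θ * (2 * Y + 1)) := by
      apply le_mul_of_one_le_right (by positivity)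
      have : 1 * 1 ≤ θ * (2 * Y + 1) := mul_le_mul hθ (by linarith) (by norm_num) hθ0.le
      linarith
    have h2 : Y ^ 2 * θ ^ 2 ≤ g * (Y ^ 2 * θ ^ 2) := le_mul_of_one_le_left (by positivity) (by linarith)
    have h3 : 2 * g * (θ * ((2 * Y + 1) * g + Y ^ 2 * θ)) =
        2 * (g ^ 2 * (θ * (2 * Y + 1))) + 2 * (g * (Y ^ 2 * θ ^ 2)) := by ring
    rw [h3]
    linarith
  set η := 2 * κ * g with hη
  have hη0 : 0 ≤ η := by positivity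
  have hηs : η ≤ 1 / 32 := by rw [hη]; linarith
  have hηW : η * W ≤ 1 / 32 := by
    have : η * W = 2 * (κ * g * W) := by rw [hη]; ring
    linarith
  have hκq : κ * q ≤ η * Bt := by
    rw [hBt', hη, mul_div_assoc', le_div_iff₀ hq0]
    calc κ * q * q = κ * q ^ 2 := by ring
      _ ≤ κ * (2 * g * (θ * N)) := mul_le_mul_of_nonneg_left hqN hκ0
      _ = 2 * κ * g * (θ * N) := by ring
  have hκqB : κ * q < Bt := by
    have : η * Bt ≤ 1 / 32 * Bt := mul_le_mul_of_nonneg_right hηs hBt0.le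
    linarith
  refine ⟨by linarith, hκqB, ?_⟩
  set D2 := (θ * γ.re - g * σ.re) ^ 2 + (θ * γ.im - g * σ.im) ^ 2 with hD2
  have ea : ‖γ‖ ^ 2 = γ.re ^ 2 + γ.im ^ 2 := by
    rw [Complex.sq_norm, Complex.normSq_apply]
    ring
  have eb : ‖σ‖ ^ 2 = σ.re ^ 2 + σ.im ^ 2 := by
    rw [Complex.sq_norm, Complex.normSq_apply]
    ring
  have eq' : ‖qz‖ ^ 2 = (γ.re + Y * σ.re) ^ 2 + (γ.im + Y * σ.im) ^ 2 := by
    rw [hqz, Complex.sq_norm, Complex.normSq_apply]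
    simp
    ring
  have ee : ‖e‖ ^ 2 = D2 / q ^ 2 := by
    have h1 : e = -((θ : ℂ) * γ - (g : ℂ) * σ) / (q : ℂ) := by
      have hqc : (q : ℂ) ≠ 0 := by exact_mod_cast hq0.ne'
      rw [he, hqz, eq_div_iff hqc, sub_mul, div_mul_cancel₀ _ hqc, hq]
      push_cast
      ring
    rw [h1, norm_div, norm_neg, div_pow]
    congr 1
    · rw [Complex.sq_norm, Complex.normSq_apply, hD2]
      simp
      ring
    · rw [Complex.norm_real, Real.norm_of_nonneg hq0.le]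
  have hbT : ‖σ‖ ^ 2 ≤ T ^ 2 := pow_le_pow_left₀ (norm_nonneg _) hσ 2
  have hD0 : 0 ≤ D2 := by rw [hD2]; positivity
  have hDle : D2 ≤ 2 * g ^ 2 * (θ ^ 2 * V + T ^ 2) := by
    have h1 : D2 ≤ 2 * θ ^ 2 * (γ.re ^ 2 + γ.im ^ 2) + 2 * g ^ 2 * (σ.re ^ 2 + σ.im ^ 2) := by
      rw [hD2]
      linarith [sq_nonneg (θ * γ.re + g * σ.re), sq_nonneg (θ * γ.im + g * σ.im)]
    rw [← ea, ← eb] at h1
    have h2 : 2 * θ ^ 2 * ‖γ‖ ^ 2 ≤ 2 * θ ^ 2 * (V * g ^ 2) :=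
      mul_le_mul_of_nonneg_left hγ (by positivity)
    have h3 : 2 * g ^ 2 * ‖σ‖ ^ 2 ≤ 2 * g ^ 2 * T ^ 2 :=
      mul_le_mul_of_nonneg_left hbT (by positivity)
    linarith
  have hDle2 : D2 ≤ 2 * g ^ 2 * (θ * W) := by
    refine hDle.trans (mul_le_mul_of_nonneg_left ?_ (by positivity))
    have a1 : θ * V * (T - θ) ≥ 0 := mul_nonneg (by positivity) (by linarith)
    have a2 : (θ - 1) * T ^ 2 ≥ 0 := mul_nonneg (by linarith) (by positivity)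
    have e : θ * W - (θ ^ 2 * V + T ^ 2) = θ * V * (T - θ) + (θ - 1) * T ^ 2 := by rw [hW]; ring
    linarith
  have k1 := h23472_D hY hθ hθT hV hg0 hq hN hD0 hDle
  have k2 := h23472_B (Bt := Bt) hY hθ hg0 hq (by rw [hBt, hβ])
  have k3 := h23472_C (T := 2 * T) hY hθ (by linarith) hg6 hq
  have k7 := surplus_big (T := T) hY hθ hT1 (by linarith : (1:ℝ) ≤ g) hq
  set Sp := θ ^ 3 * Y * (Y + 1) * (3 * Y + 1) / (2 * q) with hSp
  have hSp0 : 0 ≤ Sp := by rw [hSp]; positivity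
  have i1 : ‖qz‖ ^ 2 / q = ‖γ‖ ^ 2 / g + Y * (‖σ‖ ^ 2 / θ) - Y * D2 / (g * θ * q) := by
    rw [eq', ea, eb, hD2, hq]
    have : g + Y * θ ≠ 0 := by rw [← hq]; exact hq0.ne'
    field_simp
    ring
  have i2 : 2 * β * ‖e‖ ^ 2 / Bt = 2 * Y * (Y + 1) * D2 / (q * θ * N) := by
    rw [ee, hBt', hβ]
    field_simp
  have k4 : -(2 * Y * T ^ 2) ≤ Y * (kθ - ‖σ‖ ^ 2 / θ) := by
    have h1 : ‖σ‖ ^ 2 / θ ≤ T ^ 2 := by
      rw [div_le_iff₀ hθ0]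
      have : T ^ 2 * 1 ≤ T ^ 2 * θ := mul_le_mul_of_nonneg_left hθ (by positivity)
      linarith
    have h2 : -T ≤ kθ := (abs_le.mp hkθ).1
    have h3 : T ≤ T ^ 2 := by
      have := mul_le_mul_of_nonneg_left hT1 hT0.le
      rw [mul_one, ← sq] at this
      exact this
    have h4 : Y * (-(2 * T ^ 2)) ≤ Y * (kθ - ‖σ‖ ^ 2 / θ) :=
      mul_le_mul_of_nonneg_left (by linarith) hY
    linarith
  have k5 : θ ^ 2 ≤ T ^ 2 := pow_le_pow_left₀ hθ0.le hθT 2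
  have tot : Aa - 2 * β * ‖e‖ ^ 2 / Bt - Bt ^ 2 / 2 = (gzz - ‖γ‖ ^ 2 / g) +
      Y * (kθ - ‖σ‖ ^ 2 / θ) +
      (Y * D2 / (g * θ * q) - 2 * Y * (Y + 1) * D2 / (q * θ * N)) +
      (2 * (Y * (Y + 1)) * θ ^ 2 - Bt ^ 2 / 2) := by
    rw [i2, hAa, i1, hβ]
    ring
  -- the second term
  have hP2 : 2 * β * ‖e‖ ^ 2 / Bt ≤ 4 * Y * W := by
    rw [i2, div_le_iff₀ (by positivity)]
    have h1 : 2 * Y * (Y + 1) * D2 ≤ 2 * Y * (Y + 1) * (2 * g ^ 2 * (θ * W)) :=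
      mul_le_mul_of_nonneg_left hDle2 (by positivity)
    have h2 : (Y + 1) * g ^ 2 ≤ q * N := by
      have a1 : g ≤ q := by rw [hq]; linarith [mul_nonneg hY hθ0.le]
      have a2 : (Y + 1) * g ≤ N := by
        have e1 : N = (Y + 1) * g + Y * g + Y ^ 2 * θ := by rw [hN]; ring
        have e2 : 0 ≤ Y * g := mul_nonneg hY hg0.le
        have e3 : 0 ≤ Y ^ 2 * θ := mul_nonneg (sq_nonneg Y) hθ0.le
        linarith
      calc (Y + 1) * g ^ 2 = g * ((Y + 1) * g) := by ring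
        _ ≤ q * N := mul_le_mul a1 a2 (by positivity) hq0.le
    have h3 : 4 * Y * θ * W * ((Y + 1) * g ^ 2) ≤ 4 * Y * θ * W * (q * N) :=
      mul_le_mul_of_nonneg_left h2 (by positivity)
    calc 2 * Y * (Y + 1) * D2 ≤ 2 * Y * (Y + 1) * (2 * g ^ 2 * (θ * W)) := h1
      _ = 4 * Y * θ * W * ((Y + 1) * g ^ 2) := by ring
      _ ≤ 4 * Y * θ * W * (q * N) := h3
      _ = 4 * Y * W * (q * θ * N) := by ring
  have hβ0 : 0 ≤ β := by rw [hβ]; positivity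
  have E2 : 2 * β * ‖e‖ ^ 2 / (Bt - κ * q) ≤ 2 * β * ‖e‖ ^ 2 / Bt + Y / 4 := by
    have h1 : Bt * (1 - η) ≤ Bt - κ * q := by linarith
    have h2 : 0 < Bt * (1 - η) := mul_pos hBt0 (by linarith)
    have h3 : 2 * β * ‖e‖ ^ 2 / (Bt - κ * q) ≤ 2 * β * ‖e‖ ^ 2 / (Bt * (1 - η)) :=
      div_le_div_of_nonneg_left (by positivity) h2 h1
    have h4 : 2 * β * ‖e‖ ^ 2 / (Bt * (1 - η)) = 2 * β * ‖e‖ ^ 2 / Bt / (1 - η) := by
      rw [div_div]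
    have h5 := inv_est hη0 (by linarith) (x := 2 * β * ‖e‖ ^ 2 / Bt) (by positivity)
    have h6 : 2 * β * ‖e‖ ^ 2 / Bt * (2 * η) ≤ Y / 4 := by
      have a1 : 2 * β * ‖e‖ ^ 2 / Bt * (2 * η) ≤ 4 * Y * W * (2 * η) :=
        mul_le_mul_of_nonneg_right hP2 (by positivity)
      have a2 : 4 * Y * W * (2 * η) = 8 * Y * (η * W) := by ring
      have a3 : 8 * Y * (η * W) ≤ 8 * Y * (1 / 32) := mul_le_mul_of_nonneg_left hηW (by positivity)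
      linarith
    rw [h4] at h3
    linarith
  have hBtle : Bt ≤ (2 * Y + 1) * θ := by
    rw [hBt]
    have : 0 ≤ β * θ ^ 2 / q := by positivity
    linarith
  have hE3 : κ * Bt ^ 2 / 2 ≤ (4 * Y ^ 2 + 1) / (64 * g) := by
    have h1 : Bt ^ 2 ≤ ((2 * Y + 1) * θ) ^ 2 := pow_le_pow_left₀ hBt0.le hBtle 2
    have h2 : ((2 * Y + 1) * θ) ^ 2 ≤ (8 * Y ^ 2 + 2) * T ^ 2 := by
      rw [mul_pow]
      apply mul_le_mul _ k5 (by positivity) (by positivity)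
      have e : (8 * Y ^ 2 + 2) - (2 * Y + 1) ^ 2 = (2 * Y - 1) ^ 2 := by ring
      linarith [sq_nonneg (2 * Y - 1)]
    have h3 : κ * Bt ^ 2 ≤ κ * ((8 * Y ^ 2 + 2) * T ^ 2) :=
      mul_le_mul_of_nonneg_left (h1.trans h2) hκ0
    have h4 : κ * ((8 * Y ^ 2 + 2) * T ^ 2) = (8 * Y ^ 2 + 2) * (κ * T ^ 2) := by ring
    have h5 : (8 * Y ^ 2 + 2) * (κ * T ^ 2) ≤ (8 * Y ^ 2 + 2) * (1 / (64 * g)) :=
      mul_le_mul_of_nonneg_left hκT (by positivity)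
    have h6 : (4 * Y ^ 2 + 1) / (64 * g) = (8 * Y ^ 2 + 2) * (1 / (64 * g)) / 2 := by ring
    rw [h6]
    linarith
  have E3 : Bt ^ 2 / (2 - κ) ≤ Bt ^ 2 / 2 + κ * Bt ^ 2 / 2 :=
    inv_est2 hκ0 (by linarith) (sq_nonneg Bt)
  have E1 : κ * q ^ 2 ≤ g / 32 + Y ^ 2 / (32 * g) := by
    have h1 : κ * q ^ 2 ≤ κ * (2 * g ^ 2 + 2 * Y ^ 2 * θ ^ 2) := mul_le_mul_of_nonneg_left hqsq hκ0
    have h2 : κ * (2 * g ^ 2 + 2 * Y ^ 2 * θ ^ 2) = 2 * (κ * g) * g + 2 * Y ^ 2 * (κ * θ ^ 2) := by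
      ring
    have h3 : 2 * (κ * g) * g ≤ g / 32 := by
      have := mul_le_mul_of_nonneg_right hκg hg0.le
      linarith
    have h4 : κ * θ ^ 2 ≤ 1 / (64 * g) := (mul_le_mul_of_nonneg_left k5 hκ0).trans hκT
    have h5 : 2 * Y ^ 2 * (κ * θ ^ 2) ≤ 2 * Y ^ 2 * (1 / (64 * g)) :=
      mul_le_mul_of_nonneg_left h4 (by positivity)
    have h6 : 2 * Y ^ 2 * (1 / (64 * g)) = Y ^ 2 / (32 * g) := by
      field_simp
      ring
    linarith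
  have k6 : W + T ^ 2 / 2 ≤ g / 1000 := by
    have z1 : 12800 * T ^ 6 + 12800 * (V * T) ≤ g := by linarith
    have z2 : T * V = V * T := mul_comm _ _
    rw [hW, z2]
    linarith
  have hlow : 1 / (64 * g) ≤ g / 64 := by
    rw [div_le_iff₀ (by positivity)]
    have : 1 * 1 ≤ g * g := mul_le_mul (by linarith) (by linarith) (by norm_num) hg0.le
    linarith
  have hsum : (4 * Y ^ 2 + 1) / (64 * g) + Y ^ 2 / (32 * g) = 3 / 32 * Y ^ 2 / g + 1 / (64 * g) := by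
    field_simp
    ring
  have hYT : Y ≤ Y * T ^ 2 := le_mul_of_one_le_right hY hT21
  have k3' : 8 * (Y * T ^ 2) ≤ g / 4 + Sp := by
    have : 2 * Y * (2 * T) ^ 2 = 8 * (Y * T ^ 2) := by ring
    linarith
  have hYT0 : 0 ≤ Y * T ^ 2 := by positivity
  have key : g / 2 ≤ Aa - κ * q ^ 2 - 2 * β * ‖e‖ ^ 2 / (Bt - κ * q) - Bt ^ 2 / (2 - κ) := by
    have t1 : Aa - κ * q ^ 2 - 2 * β * ‖e‖ ^ 2 / (Bt - κ * q) - Bt ^ 2 / (2 - κ) ≥
        (Aa - 2 * β * ‖e‖ ^ 2 / Bt - Bt ^ 2 / 2) - (g / 32 + Y ^ 2 / (32 * g)) - Y / 4 -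
          (4 * Y ^ 2 + 1) / (64 * g) := by linarith
    rw [tot] at t1
    have t2 : 2 * Y * T ^ 2 = 2 * (Y * T ^ 2) := by ring
    linarith
  linarith

end Pool.Agent.KS6_69.Ric.SC
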